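import Mathlib
import Pool.Agent.Collatz3.FWFin

set_option autoImplicit false

namespace Pool.Agent.Helper87.NormalOrderOld

open Filter Topology

/-- The law of large numbers for the hitting times of the 3x+1 map (the total stopping time is the
case `a = 1`) on their domain, a set of positive lower density. -/
theorem result :
    (∃ c : ℝ, 0 < c ∧ ∀ a : ℕ, 0 < a → ¬ 3 ∣ a → ∀ x : ℕ, a ≤ x →
      c * ((x : ℝ) / a) ≤ ({n : ℕ | 1 ≤ n ∧ n ≤ x ∧
        ∃ k : ℕ, (fun m : ℕ => if m % 2 = 0 then m / 2 else (3 * m + 1) / 2)^[k] n =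
          a}.ncard : ℝ)) ∧
    (∀ a : ℕ, ∀ θ : ℝ, 1 / 2 < θ → θ < 1 →
      Tendsto (fun x : ℕ => ({n : ℕ | 1 ≤ n ∧ n ≤ x ∧ ∃ k : ℕ,
        (fun m : ℕ => if m % 2 = 0 then m / 2 else (3 * m + 1) / 2)^[k] n = a ∧
        (∀ j < k, (fun m : ℕ => if m % 2 = 0 then m / 2 else (3 * m + 1) / 2)^[j] n ≠ a) ∧
        Real.log (n : ℝ) ^ θ <
          |(k : ℝ) - ((1 / 2) * Real.log (4 / 3))⁻¹ * Real.log (n : ℝ)|}.ncard : ℝ) / x)
        atTop (𝓝 0)) := by
  have hT : (fun m : ℕ => if m % 2 = 0 then m / 2 else (3 * m + 1) / 2) =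
    Pool.Agent.Collatz3.FW.Tn := rfl
  rw [hT]
  exact Pool.Agent.Collatz3.FW.normal_order

end Pool.Agent.Helper87.NormalOrderOld
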